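import Pool.Agent.Y915.Stm

set_option autoImplicit false

/-!
# The weighted `ℓ¹` bound of power series, denominators and crude bounds
-/

namespace Pool.Agent.Y474.PC

open scoped PowerSeries Polynomial
open Finset
open Pool.Agent.Y915

/-- All partial sums of `∑ ‖g_m‖ ρ^m` are at most `B`. -/
def Bd (ρ B : ℝ) (g : ℂ⟦X⟧) : Prop :=
  ∀ n : ℕ, ∑ m ∈ range n, ‖PowerSeries.coeff m g‖ * ρ ^ m ≤ B

lemma Bd_nonneg {ρ B : ℝ} {g : ℂ⟦X⟧} (h : Bd ρ B g) : 0 ≤ B := by simpa using h 0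

lemma Bd_coeff {ρ B : ℝ} {g : ℂ⟦X⟧} (hρ : 0 ≤ ρ) (h : Bd ρ B g) (m : ℕ) :
    ‖PowerSeries.coeff m g‖ * ρ ^ m ≤ B := by
  refine le_trans ?_ (h (m + 1))
  exact single_le_sum (f := fun m => ‖PowerSeries.coeff m g‖ * ρ ^ m)
    (fun i _ => by positivity) (mem_range.2 (Nat.lt_succ_self m))

lemma Bd_mono {ρ B C : ℝ} {g : ℂ⟦X⟧} (h : Bd ρ B g) (hBC : B ≤ C) : Bd ρ C g :=
  fun n => (h n).trans hBC

lemma Bd_add {ρ B C : ℝ} (hρ : 0 ≤ ρ) {g h : ℂ⟦X⟧} (hg : Bd ρ B g) (hh : Bd ρ C h) :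
    Bd ρ (B + C) (g + h) := by
  intro n
  calc ∑ m ∈ range n, ‖PowerSeries.coeff m (g + h)‖ * ρ ^ m
      ≤ ∑ m ∈ range n, (‖PowerSeries.coeff m g‖ * ρ ^ m + ‖PowerSeries.coeff m h‖ * ρ ^ m) := by
        refine sum_le_sum fun m _ => ?_
        rw [← add_mul, map_add]
        gcongr
        exact norm_add_le _ _
    _ = _ := sum_add_distrib
    _ ≤ B + C := add_le_add (hg n) (hh n)

lemma Bd_C (ρ : ℝ) (a : ℂ) : Bd ρ ‖a‖ (PowerSeries.C a) := by
  intro n
  rcases Nat.eq_zero_or_pos n with hn | hn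
  · subst hn; simp
  · rw [sum_eq_single_of_mem 0 (mem_range.2 hn)]
    · simp
    · intro b _ hb
      simp [PowerSeries.coeff_C, hb]

lemma Bd_mul {ρ B C : ℝ} (hρ : 0 ≤ ρ) {g h : ℂ⟦X⟧} (hg : Bd ρ B g) (hh : Bd ρ C h) :
    Bd ρ (B * C) (g * h) := by
  intro n
  have hB : 0 ≤ B := Bd_nonneg hg
  calc ∑ m ∈ range n, ‖PowerSeries.coeff m (g * h)‖ * ρ ^ m
      ≤ ∑ m ∈ range n, ∑ x ∈ (range n ×ˢ range n).filter (fun x => x.1 + x.2 = m),
          (‖PowerSeries.coeff x.1 g‖ * ρ ^ x.1) * (‖PowerSeries.coeff x.2 h‖ * ρ ^ x.2) := by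
        refine sum_le_sum fun m hm => ?_
        have hm' := mem_range.1 hm
        have e : (range n ×ˢ range n).filter (fun x => x.1 + x.2 = m) = antidiagonal m := by
          ext x
          simp only [mem_filter, mem_product, mem_range, HasAntidiagonal.mem_antidiagonal]
          omega
        rw [e, PowerSeries.coeff_mul]
        calc ‖∑ x ∈ antidiagonal m, PowerSeries.coeff x.1 g * PowerSeries.coeff x.2 h‖ * ρ ^ m
            ≤ (∑ x ∈ antidiagonal m,
                ‖PowerSeries.coeff x.1 g‖ * ‖PowerSeries.coeff x.2 h‖) * ρ ^ m := by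
              gcongr
              exact (norm_sum_le _ _).trans (sum_le_sum fun x _ => (norm_mul_le _ _))
          _ = _ := by
              rw [sum_mul]
              refine sum_congr rfl fun x hx => ?_
              rw [← (mem_antidiagonal.1 hx), pow_add]
              ring
    _ ≤ ∑ m ∈ range (2 * n), ∑ x ∈ (range n ×ˢ range n).filter (fun x => x.1 + x.2 = m),
          (‖PowerSeries.coeff x.1 g‖ * ρ ^ x.1) * (‖PowerSeries.coeff x.2 h‖ * ρ ^ x.2) := by
        refine sum_le_sum_of_subset_of_nonneg ?_ ?_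
        · intro x hx
          have := mem_range.1 hx
          exact mem_range.2 (by omega)
        · intro i _ _
          exact sum_nonneg fun x _ => by positivity
    _ = ∑ x ∈ range n ×ˢ range n,
          (‖PowerSeries.coeff x.1 g‖ * ρ ^ x.1) * (‖PowerSeries.coeff x.2 h‖ * ρ ^ x.2) := by
        refine sum_fiberwise_of_maps_to (g := fun x : ℕ × ℕ => x.1 + x.2) ?_ _
        intro x hx
        simp only [mem_product, mem_range] at hx ⊢
        omega
    _ = (∑ i ∈ range n, ‖PowerSeries.coeff i g‖ * ρ ^ i) *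
          (∑ j ∈ range n, ‖PowerSeries.coeff j h‖ * ρ ^ j) := by
        rw [sum_mul_sum, sum_product]
    _ ≤ B * C := by
        refine mul_le_mul (hg n) (hh n) (sum_nonneg fun x _ => by positivity) hB

lemma Bd_one (ρ : ℝ) : Bd ρ 1 (1 : ℂ⟦X⟧) := by
  have := Bd_C ρ (1 : ℂ)
  simpa using this

lemma Bd_pow {ρ B : ℝ} (hρ : 0 ≤ ρ) {g : ℂ⟦X⟧} (hg : Bd ρ B g) (k : ℕ) :
    Bd ρ (B ^ k) (g ^ k) := by
  induction k with
  | zero => simpa using Bd_one ρ
  | succ k ih => rw [pow_succ, pow_succ]; exact Bd_mul hρ ih hg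

lemma Bd_sum {ι : Type*} (s : Finset ι) {ρ : ℝ} (hρ : 0 ≤ ρ) (B : ι → ℝ) (g : ι → ℂ⟦X⟧)
    (h : ∀ i ∈ s, Bd ρ (B i) (g i)) : Bd ρ (∑ i ∈ s, B i) (∑ i ∈ s, g i) := by
  classical
  induction s using Finset.induction_on with
  | empty => intro n; simp
  | insert a s ha ih =>
    rw [sum_insert ha, sum_insert ha]
    exact Bd_add hρ (h a (mem_insert_self _ _)) (ih fun i hi => h i (mem_insert_of_mem hi))

lemma Bd_of_Gd {ρ : ℝ} (h0 : 0 < ρ) (h1 : ρ < 1) {g : ℂ⟦X⟧} (h : Gd 1 g) :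
    ∃ B : ℝ, Bd ρ B g := by
  obtain ⟨B, hB⟩ := h ((ρ + 1) / 2) (by linarith) (by linarith)
  have hB0 : 0 ≤ B := le_trans (by positivity) (hB 0)
  set ρ' : ℝ := (ρ + 1) / 2 with hρ'
  have hp : 0 < ρ' := by rw [hρ']; linarith
  set q : ℝ := ρ / ρ' with hq
  have hq0 : 0 ≤ q := by positivity
  have hq1 : q < 1 := by rw [hq, div_lt_one hp, hρ']; linarith
  refine ⟨B / (1 - q), fun n => ?_⟩
  calc ∑ m ∈ range n, ‖PowerSeries.coeff m g‖ * ρ ^ m ≤ ∑ m ∈ range n, B * q ^ m := by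
        refine sum_le_sum fun m _ => ?_
        have : ρ ^ m = ρ' ^ m * q ^ m := by
          rw [← mul_pow, hq, mul_div_cancel₀ _ hp.ne']
        rw [this, ← mul_assoc]
        exact mul_le_mul_of_nonneg_right (hB m) (by positivity)
    _ = B * ∑ m ∈ range n, q ^ m := by rw [mul_sum]
    _ ≤ B * (1 / (1 - q)) := by
        refine mul_le_mul_of_nonneg_left ?_ hB0
        have hne : q ≠ 1 := hq1.ne
        rw [geom_sum_eq hne, ← neg_div_neg_eq]
        have : 0 < 1 - q := by linarith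
        rw [neg_sub, neg_sub]
        gcongr
        have : 0 ≤ q ^ n := by positivity
        linarith
    _ = B / (1 - q) := by ring

/-- The lowest coefficient of `Ψ (X^N h)`. -/
lemma low_coeff (Ψ : ℚ⟦X⟧ →+* ℂ⟦X⟧)
    (hc : ∀ g : ℚ⟦X⟧, PowerSeries.constantCoeff (Ψ g) = ((PowerSeries.constantCoeff g : ℚ) : ℂ))
    (N : ℕ) (g : ℚ⟦X⟧) (hg : ∀ m < N, PowerSeries.coeff m g = 0) :
    PowerSeries.coeff N (Ψ g) =
      (PowerSeries.coeff 1 (Ψ PowerSeries.X)) ^ N * ((PowerSeries.coeff N g : ℚ) : ℂ) := by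
  obtain ⟨h, rfl⟩ := PowerSeries.X_pow_dvd_iff.2 hg
  have hX : PowerSeries.constantCoeff (Ψ PowerSeries.X) = 0 := by rw [hc]; simp
  obtain ⟨φ, hφ⟩ := PowerSeries.X_dvd_iff.2 hX
  have h1 : PowerSeries.coeff 1 (Ψ PowerSeries.X) = PowerSeries.constantCoeff φ := by
    rw [hφ]
    have := PowerSeries.coeff_succ_X_mul 0 φ
    simp at this ⊢
  have h2 : PowerSeries.coeff N (PowerSeries.X ^ N * h) = PowerSeries.constantCoeff h := by
    have := PowerSeries.coeff_X_pow_mul h N 0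
    simpa using this
  rw [h1, h2, map_mul, map_pow, hφ, mul_pow, mul_assoc]
  have := PowerSeries.coeff_X_pow_mul (φ ^ N * Ψ h) N 0
  rw [zero_add] at this
  rw [this, PowerSeries.coeff_zero_eq_constantCoeff_apply, map_mul, map_pow, hc]

lemma W_zero_dvd {W : ℕ → ℕ} (hW : ∀ m l, W m * W l ∣ W (m + l)) {l n : ℕ} (h : l ≤ n) :
    W l ∣ W n := by
  obtain ⟨k, rfl⟩ := Nat.exists_eq_add_of_le h
  exact (Dvd.intro _ rfl).trans (hW l k)

/-- Denominators of the powers of `f`. -/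
lemma den_pow (f : ℚ⟦X⟧) (W : ℕ → ℕ) (E : ℕ) (hW : ∀ m l, W m * W l ∣ W (m + l))
    (hf : ∀ m : ℕ, ∃ z : ℤ, ((E * W m : ℕ) : ℚ) * PowerSeries.coeff m f = z) (i : ℕ) :
    ∀ m : ℕ, ∃ z : ℤ, ((E ^ i * W m : ℕ) : ℚ) * PowerSeries.coeff m (f ^ i) = z := by
  induction i with
  | zero =>
    intro m
    rw [pow_zero, pow_zero, PowerSeries.coeff_one]
    split_ifs
    · exact ⟨(1 * W m : ℕ), by push_cast; ring⟩
    · exact ⟨0, by simp⟩
  | succ i ih =>
    intro m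
    have key : ∀ x ∈ antidiagonal m, ∃ z : ℤ, ((E ^ (i + 1) * W m : ℕ) : ℚ) *
        (PowerSeries.coeff x.1 (f ^ i) * PowerSeries.coeff x.2 f) = z := by
      intro x hx
      obtain ⟨z1, h1⟩ := ih x.1
      obtain ⟨z2, h2⟩ := hf x.2
      obtain ⟨q, hq⟩ := hW x.1 x.2
      rw [mem_antidiagonal.1 hx] at hq
      refine ⟨z1 * z2 * q, ?_⟩
      push_cast
      rw [← h1, ← h2, hq]
      push_cast
      ring
    choose! z hz using key
    refine ⟨∑ x ∈ antidiagonal m, z x, ?_⟩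
    rw [pow_succ f, PowerSeries.coeff_mul, mul_sum]
    push_cast
    refine sum_congr rfl fun x hx => ?_
    have := hz x hx
    push_cast at this
    exact this

/-- Denominators of the products `X^a f^b`. -/
lemma den (f : ℚ⟦X⟧) (W : ℕ → ℕ) (E : ℕ) (hW : ∀ m l, W m * W l ∣ W (m + l))
    (hf : ∀ m : ℕ, ∃ z : ℤ, ((E * W m : ℕ) : ℚ) * PowerSeries.coeff m f = z)
    {T l n : ℕ} (a : ℕ) {b : ℕ} (hb : b ≤ T) (hl : l ≤ n) :
    ∃ z : ℤ, ((E ^ T * W n : ℕ) : ℚ) *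
      PowerSeries.coeff l (PowerSeries.X ^ a * f ^ b) = z := by
  rw [PowerSeries.coeff_X_pow_mul']
  split_ifs with h
  · obtain ⟨z, hz⟩ := den_pow f W E hW hf b (l - a)
    obtain ⟨q, hq⟩ := W_zero_dvd hW (show l - a ≤ n by omega)
    obtain ⟨r, hr⟩ := pow_dvd_pow E hb
    refine ⟨z * q * r, ?_⟩
    push_cast
    rw [← hz, hq]
    have : ((E : ℚ) ^ T) = (E : ℚ) ^ b * r := by exact_mod_cast hr
    rw [this]
    push_cast
    ring
  · exact ⟨0, by simp⟩

/-- Crude bound for the coefficients of the powers of `f`. -/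
lemma crude_pow (f : ℚ⟦X⟧) (A : ℝ) (hA : 1 ≤ A)
    (hf : ∀ m : ℕ, |((PowerSeries.coeff m f : ℚ) : ℝ)| ≤ A ^ (m + 1)) (b : ℕ) :
    ∀ m : ℕ, |((PowerSeries.coeff m (f ^ b) : ℚ) : ℝ)| ≤ (2 * A) ^ (m + b) := by
  induction b with
  | zero =>
    intro m
    rw [pow_zero, PowerSeries.coeff_one]
    split_ifs
    · simp only [Rat.cast_one, abs_one]
      exact one_le_pow₀ (by linarith)
    · simp only [Rat.cast_zero, abs_zero]
      positivity
  | succ b ih =>
    intro m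
    rw [pow_succ, PowerSeries.coeff_mul]
    push_cast
    calc |∑ x ∈ antidiagonal m, ((PowerSeries.coeff x.1 (f ^ b) : ℚ) : ℝ) *
          ((PowerSeries.coeff x.2 f : ℚ) : ℝ)|
        ≤ ∑ x ∈ antidiagonal m, |((PowerSeries.coeff x.1 (f ^ b) : ℚ) : ℝ) *
          ((PowerSeries.coeff x.2 f : ℚ) : ℝ)| := abs_sum_le_sum_abs _ _
      _ ≤ ∑ x ∈ antidiagonal m, A ^ (m + b + 1) * 2 ^ (x.1 + b) := by
          refine sum_le_sum fun x hx => ?_
          rw [abs_mul]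
          calc _ ≤ (2 * A) ^ (x.1 + b) * A ^ (x.2 + 1) := by
                refine mul_le_mul (ih _) (hf _) (abs_nonneg _) (by positivity)
            _ = _ := by
                rw [← mem_antidiagonal.1 hx, mul_pow]
                ring
      _ = A ^ (m + b + 1) * 2 ^ b * ∑ i ∈ range (m + 1), 2 ^ i := by
          rw [Finset.Nat.sum_antidiagonal_eq_sum_range_succ_mk, mul_sum]
          refine sum_congr rfl fun i _ => ?_
          simp only
          ring
      _ ≤ A ^ (m + b + 1) * 2 ^ b * 2 ^ (m + 1) := by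
          refine mul_le_mul_of_nonneg_left ?_ (by positivity)
          rw [geom_sum_eq (by norm_num)]
          norm_num
      _ = (2 * A) ^ (m + (b + 1)) := by
          rw [mul_pow]; ring

lemma crude (f : ℚ⟦X⟧) (A : ℝ) (hA : 1 ≤ A)
    (hf : ∀ m : ℕ, |((PowerSeries.coeff m f : ℚ) : ℝ)| ≤ A ^ (m + 1))
    {T n l : ℕ} (a : ℕ) {b : ℕ} (hb : b ≤ T) (hl : l ≤ n) :
    |((PowerSeries.coeff l (PowerSeries.X ^ a * f ^ b) : ℚ) : ℝ)| ≤ (2 * A) ^ (n + T) := by
  rw [PowerSeries.coeff_X_pow_mul']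
  split_ifs with h
  · refine (crude_pow f A hA hf b (l - a)).trans ?_
    exact pow_le_pow_right₀ (by linarith) (by omega)
  · simp only [Rat.cast_zero, abs_zero]
    positivity

end Pool.Agent.Y474.PC
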