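import Pool.Agent.Y474.PC.A

set_option autoImplicit false

/-!
# The auxiliary function
-/

namespace Pool.Agent.Y474.PC

open scoped PowerSeries Polynomial
open Finset
open Pool.Agent.Y915

/-- The series `∑ P(a,b) X^a f^b`. -/
noncomputable def gP (f : ℚ⟦X⟧) (T : ℕ) (P : Fin (T + 1) × Fin (T + 1) → ℤ) : ℚ⟦X⟧ :=
  ∑ x : Fin (T + 1) × Fin (T + 1),
    PowerSeries.C ((P x : ℤ) : ℚ) * (PowerSeries.X ^ (x.1 : ℕ) * f ^ (x.2 : ℕ))

lemma coeff_gP (f : ℚ⟦X⟧) (T : ℕ) (P : Fin (T + 1) × Fin (T + 1) → ℤ) (l : ℕ) :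
    PowerSeries.coeff l (gP f T P) = ∑ x : Fin (T + 1) × Fin (T + 1),
      (P x : ℚ) * PowerSeries.coeff l (PowerSeries.X ^ (x.1 : ℕ) * f ^ (x.2 : ℕ)) := by
  rw [gP, map_sum]
  refine sum_congr rfl fun x _ => ?_
  rw [PowerSeries.coeff_C_mul]

/-- If some `gP` vanishes then `f` is algebraic. -/
lemma alg_of_gP (f : ℚ⟦X⟧) (T : ℕ) (P : Fin (T + 1) × Fin (T + 1) → ℤ) (hP : P ≠ 0)
    (h : gP f T P = 0) : IsAlgebraic ℚ[X] f := by
  classical
  let p : Polynomial ℚ[X] := ∑ x : Fin (T + 1) × Fin (T + 1),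
    Polynomial.C (Polynomial.C ((P x : ℤ) : ℚ) * Polynomial.X ^ (x.1 : ℕ)) *
      Polynomial.X ^ (x.2 : ℕ)
  refine ⟨p, ?_, ?_⟩
  · intro hp
    apply hP
    funext y
    have h1 : (p.coeff (y.2 : ℕ)).coeff (y.1 : ℕ) = (P y : ℚ) := by
      simp only [p, Polynomial.finsetSum_coeff, Polynomial.coeff_C_mul, Polynomial.coeff_X_pow]
      rw [sum_eq_single y]
      · simp
      · intro b _ hb
        by_cases h2 : (y.2 : ℕ) = (b.2 : ℕ)
        · by_cases h1 : (y.1 : ℕ) = (b.1 : ℕ)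
          · exact absurd (Prod.ext (Fin.ext h1.symm) (Fin.ext h2.symm)) hb
          · simp [h1, h2]
        · simp [h2]
      · intro h; exact absurd (mem_univ _) h
    rw [hp] at h1
    simp only [Polynomial.coeff_zero] at h1
    have : (P y : ℚ) = 0 := h1.symm
    exact_mod_cast this
  · rw [← h, gP]
    simp only [p, map_sum, map_mul, Polynomial.aeval_C, map_pow, Polynomial.aeval_X]
    refine sum_congr rfl fun x _ => ?_
    have e1 : (algebraMap ℚ[X] ℚ⟦X⟧) (Polynomial.C ((P x : ℤ) : ℚ)) =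
        PowerSeries.C ((P x : ℤ) : ℚ) := by
      rw [PowerSeries.algebraMap_apply', Polynomial.coe_C, PowerSeries.map_C]
      rfl
    have e2 : (algebraMap ℚ[X] ℚ⟦X⟧) Polynomial.X = PowerSeries.X := by
      rw [PowerSeries.algebraMap_apply']
      simp
    rw [e1, e2]
    ring

/-- Bound of `Ψ gP`. -/
lemma Bd_gP (f : ℚ⟦X⟧) (Ψ : ℚ⟦X⟧ →+* ℂ⟦X⟧) (T : ℕ) (P : Fin (T + 1) × Fin (T + 1) → ℤ)
    {H B ρ : ℝ} (hρ : 0 ≤ ρ) (hB : 1 ≤ B) (h1 : Bd ρ B (Ψ PowerSeries.X)) (h2 : Bd ρ B (Ψ f))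
    (hP : ∀ x, |(P x : ℝ)| ≤ H) :
    Bd ρ (((T : ℝ) + 1) ^ 2 * (H * B ^ (2 * T))) (Ψ (gP f T P)) := by
  have hH : 0 ≤ H := le_trans (abs_nonneg _) (hP (0, 0))
  have key : ∀ x ∈ (univ : Finset (Fin (T + 1) × Fin (T + 1))), Bd ρ (H * B ^ (2 * T))
      (Ψ (PowerSeries.C ((P x : ℤ) : ℚ) * (PowerSeries.X ^ (x.1 : ℕ) * f ^ (x.2 : ℕ)))) := by
    intro x _
    have e1 : Ψ (PowerSeries.C ((P x : ℤ) : ℚ)) = PowerSeries.C ((P x : ℤ) : ℂ) := by
      have a1 : (PowerSeries.C ((P x : ℤ) : ℚ) : ℚ⟦X⟧) = ((P x : ℤ) : ℚ⟦X⟧) := by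
        rw [map_intCast]
      have a2 : (PowerSeries.C ((P x : ℤ) : ℂ) : ℂ⟦X⟧) = ((P x : ℤ) : ℂ⟦X⟧) := by
        rw [map_intCast]
      rw [a1, a2, map_intCast]
    rw [map_mul, map_mul, map_pow, map_pow, e1]
    have b1 := Bd_C ρ ((P x : ℤ) : ℂ)
    have b2 := Bd_mul hρ b1 (Bd_mul hρ (Bd_pow hρ h1 (x.1 : ℕ)) (Bd_pow hρ h2 (x.2 : ℕ)))
    refine Bd_mono b2 ?_
    have n1 : ‖((P x : ℤ) : ℂ)‖ = |(P x : ℝ)| := by
      rw [Complex.norm_intCast]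
    rw [n1]
    refine mul_le_mul (hP x) ?_ (by positivity) hH
    rw [← pow_add]
    refine pow_le_pow_right₀ hB ?_
    have := x.1.2
    have := x.2.2
    omega
  have := Bd_sum univ hρ (fun _ => H * B ^ (2 * T)) _ key
  rw [← map_sum] at this
  refine Bd_mono this ?_
  rw [sum_const, card_univ]
  simp only [Fintype.card_prod, Fintype.card_fin, nsmul_eq_mul]
  push_cast
  exact le_of_eq (by ring)

/-- The main inequality. -/
lemma main_ineq (f : ℚ⟦X⟧) (W : ℕ → ℕ) (E : ℕ) (τ : ℝ) (Ψ : ℚ⟦X⟧ →+* ℂ⟦X⟧)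
    (hE : 0 < E) (hW0 : ∀ m, 0 < W m) (hW : ∀ m l, W m * W l ∣ W (m + l))
    (hτ : ∀ m : ℕ, Real.log (W m) ≤ τ * m)
    (hf : ∀ m : ℕ, ∃ z : ℤ, ((E * W m : ℕ) : ℚ) * PowerSeries.coeff m f = z)
    (hc : ∀ g : ℚ⟦X⟧, PowerSeries.constantCoeff (Ψ g) = ((PowerSeries.constantCoeff g : ℚ) : ℂ))
    {ρ B : ℝ} (hρ : 0 < ρ) (hB : 1 ≤ B)
    (h1 : Bd ρ B (Ψ PowerSeries.X)) (h2 : Bd ρ B (Ψ f))
    (hR : 0 < ‖PowerSeries.coeff 1 (Ψ PowerSeries.X)‖)
    (T : ℕ) (P : Fin (T + 1) × Fin (T + 1) → ℤ) {H : ℝ} (hH : 1 ≤ H)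
    (hP : ∀ x, |(P x : ℝ)| ≤ H) (hg : gP f T P ≠ 0) :
    ∃ N : ℕ, PowerSeries.coeff N (gP f T P) ≠ 0 ∧
      (Real.log ‖PowerSeries.coeff 1 (Ψ PowerSeries.X)‖ + Real.log ρ - τ) * N ≤
      2 * Real.log (T + 1) + Real.log H + 2 * T * Real.log B + T * Real.log E := by
  classical
  have hex : ∃ n, PowerSeries.coeff n (gP f T P) ≠ 0 := by
    by_contra hcon
    push Not at hcon
    exact hg (PowerSeries.ext fun n => by simpa using hcon n)
  obtain ⟨N, hN, hmin⟩ : ∃ N, PowerSeries.coeff N (gP f T P) ≠ 0 ∧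
      ∀ m < N, PowerSeries.coeff m (gP f T P) = 0 :=
    ⟨Nat.find hex, Nat.find_spec hex, fun m hm => by
      have := Nat.find_min hex hm
      push Not at this
      exact this⟩
  refine ⟨N, hN, ?_⟩
  set R : ℝ := ‖PowerSeries.coeff 1 (Ψ PowerSeries.X)‖ with hRdef
  -- lower bound
  have hint : ∃ z : ℤ, ((E ^ T * W N : ℕ) : ℚ) * PowerSeries.coeff N (gP f T P) = z := by
    have key : ∀ x : Fin (T + 1) × Fin (T + 1), ∃ z : ℤ, ((E ^ T * W N : ℕ) : ℚ) *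
        PowerSeries.coeff N (PowerSeries.X ^ (x.1 : ℕ) * f ^ (x.2 : ℕ)) = z := fun x =>
      den f W E hW hf (x.1 : ℕ) (by have := x.2.2; omega) le_rfl
    choose z hz using key
    refine ⟨∑ x, P x * z x, ?_⟩
    rw [coeff_gP, mul_sum]
    push_cast
    refine sum_congr rfl fun x _ => ?_
    rw [← hz x]
    push_cast
    ring
  obtain ⟨z, hz⟩ := hint
  have hEW : (0 : ℚ) < ((E ^ T * W N : ℕ) : ℚ) := by
    have := hW0 N
    have : 0 < E ^ T * W N := by positivity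
    exact_mod_cast this
  have hz0 : z ≠ 0 := by
    intro h0
    rw [h0] at hz
    simp only [Int.cast_zero, mul_eq_zero] at hz
    rcases hz with hz | hz
    · exact hEW.ne' hz
    · exact hN hz
  have hz1 : (1 : ℝ) ≤ ((E ^ T * W N : ℕ) : ℝ) *
      |((PowerSeries.coeff N (gP f T P) : ℚ) : ℝ)| := by
    have a1 : (1 : ℤ) ≤ |z| := Int.one_le_abs hz0
    have a2 : ((|z| : ℤ) : ℝ) = ((E ^ T * W N : ℕ) : ℝ) *
      |((PowerSeries.coeff N (gP f T P) : ℚ) : ℝ)| := by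
      have : ((z : ℤ) : ℝ) = ((E ^ T * W N : ℕ) : ℝ) *
        ((PowerSeries.coeff N (gP f T P) : ℚ) : ℝ) := by
        exact_mod_cast hz.symm
      rw [Int.cast_abs, this, abs_mul, Nat.abs_cast]
    rw [← a2]
    exact_mod_cast a1
  -- upper bound
  have hup := Bd_coeff hρ.le (Bd_gP f Ψ T P hρ.le hB h1 h2 hP) N
  rw [low_coeff Ψ hc N _ hmin, norm_mul, norm_pow, ← hRdef] at hup
  have hn : ‖(((PowerSeries.coeff N (gP f T P) : ℚ) : ℂ))‖ =
      |((PowerSeries.coeff N (gP f T P) : ℚ) : ℝ)| := Complex.norm_ratCast _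
  rw [hn] at hup
  set q : ℝ := |((PowerSeries.coeff N (gP f T P) : ℚ) : ℝ)| with hq
  have hEr : (0 : ℝ) < E := by exact_mod_cast hE
  have hWr : (0 : ℝ) < W N := by exact_mod_cast hW0 N
  have hcomb : R ^ N * ρ ^ N ≤ (E : ℝ) ^ T * W N * (((T : ℝ) + 1) ^ 2 * (H * B ^ (2 * T))) := by
    calc R ^ N * ρ ^ N ≤ R ^ N * ρ ^ N * (((E ^ T * W N : ℕ) : ℝ) * q) :=
          le_mul_of_one_le_right (by positivity) hz1
      _ = (E : ℝ) ^ T * W N * (R ^ N * q * ρ ^ N) := by push_cast; ring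
      _ ≤ _ := mul_le_mul_of_nonneg_left hup (by positivity)
  have hT1 : (0 : ℝ) < (T : ℝ) + 1 := by positivity
  have hH0 : 0 < H := by linarith
  have hB0 : 0 < B := by linarith
  have hlog := Real.log_le_log (by positivity) hcomb
  rw [Real.log_mul (by positivity) (by positivity), Real.log_pow, Real.log_pow,
    Real.log_mul (by positivity) (by positivity), Real.log_mul (by positivity) (by positivity),
    Real.log_mul (by positivity) (by positivity), Real.log_mul (by positivity) (by positivity),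
    Real.log_pow, Real.log_pow, Real.log_pow] at hlog
  push_cast at hlog
  have := hτ N
  linarith

end Pool.Agent.Y474.PC
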