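import Pool.Agent.Y474.PC.B

set_option autoImplicit false

/-!
# Siegel's lemma and the choice of the parameters
-/

namespace Pool.Agent.Y474.PC

open scoped PowerSeries Polynomial
open Finset
open Pool.Agent.Y915

attribute [local instance] Matrix.seminormedAddCommGroup

lemma siegel (f : ℚ⟦X⟧) (W : ℕ → ℕ) (E : ℕ) (τ A : ℝ)
    (hE : 0 < E) (hW0 : ∀ m, 0 < W m) (hW : ∀ m l, W m * W l ∣ W (m + l))
    (hτ : ∀ m : ℕ, Real.log (W m) ≤ τ * m) (hτ0 : 0 ≤ τ)
    (hf : ∀ m : ℕ, ∃ z : ℤ, ((E * W m : ℕ) : ℚ) * PowerSeries.coeff m f = z)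
    (hA : 1 ≤ A) (hA' : ∀ m : ℕ, |((PowerSeries.coeff m f : ℚ) : ℝ)| ≤ A ^ (m + 1))
    (k t T : ℕ) (hk : 2 ≤ k) (ht : 1 ≤ t) (hT : T + 1 = k * t) :
    ∃ (P : Fin (T + 1) × Fin (T + 1) → ℤ) (H : ℝ), P ≠ 0 ∧ 1 ≤ H ∧ (∀ x, |(P x : ℝ)| ≤ H) ∧
      (∀ l < k * t ^ 2, PowerSeries.coeff l (gP f T P) = 0) ∧
      Real.log H = (1 / ((k : ℝ) - 1)) *
        (2 * Real.log (k * t) + T * Real.log E + τ * (k * t ^ 2 : ℕ) +
          ((k * t ^ 2 : ℕ) + T) * Real.log (2 * A)) := by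
  classical
  set n : ℕ := k * t ^ 2 with hn
  have key : ∀ (l : Fin n) (x : Fin (T + 1) × Fin (T + 1)), ∃ z : ℤ, ((E ^ T * W n : ℕ) : ℚ) *
        PowerSeries.coeff (l : ℕ) (PowerSeries.X ^ (x.1 : ℕ) * f ^ (x.2 : ℕ)) = z := fun l x =>
      den f W E hW hf (x.1 : ℕ) (by have := x.2.2; omega) l.2.le
  choose M hM using key
  let Mt : Matrix (Fin n) (Fin (T + 1) × Fin (T + 1)) ℤ := fun l x => M l x
  have hn0 : 0 < n := by positivity
  have hcard : Fintype.card (Fin n) < Fintype.card (Fin (T + 1) × Fin (T + 1)) := by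
    simp only [Fintype.card_prod, Fintype.card_fin, hT, hn]
    have : 0 < t ^ 2 := by positivity
    nlinarith
  obtain ⟨P, hP0, hP1, hP2⟩ := Int.Matrix.exists_ne_zero_int_vec_norm_le Mt hcard
    (by simpa using hn0)
  have hEr : (0 : ℝ) < E := by exact_mod_cast hE
  have hE1 : (1 : ℝ) ≤ E := by exact_mod_cast hE
  have hWr : (0 : ℝ) < W n := by exact_mod_cast hW0 n
  set K : ℝ := (E : ℝ) ^ T * Real.exp (τ * n) * (2 * A) ^ (n + T) with hK
  have hK1 : 1 ≤ K := by
    have h1 : 1 ≤ (E : ℝ) ^ T := one_le_pow₀ hE1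
    have h2 : 1 ≤ Real.exp (τ * n) := Real.one_le_exp (by positivity)
    have h3 : 1 ≤ (2 * A) ^ (n + T) := one_le_pow₀ (by linarith)
    exact one_le_mul_of_one_le_of_one_le (one_le_mul_of_one_le_of_one_le h1 h2) h3
  have hWexp : (W n : ℝ) ≤ Real.exp (τ * n) := by
    rw [← Real.exp_log hWr]
    exact Real.exp_le_exp.2 (hτ n)
  have hMt : max 1 ‖Mt‖ ≤ K := by
    refine max_le hK1 ?_
    rw [Matrix.norm_le_iff (by linarith)]
    intro l x
    rw [Int.norm_eq_abs]
    have e1 : ((M l x : ℤ) : ℝ) = ((E ^ T * W n : ℕ) : ℝ) * ((PowerSeries.coeff (l : ℕ)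
        (PowerSeries.X ^ (x.1 : ℕ) * f ^ (x.2 : ℕ)) : ℚ) : ℝ) := by
      exact_mod_cast (hM l x).symm
    change |((M l x : ℤ) : ℝ)| ≤ K
    rw [e1, abs_mul, Nat.abs_cast, hK]
    refine mul_le_mul ?_ (crude f A hA hA' (x.1 : ℕ) (by have := x.2.2; omega) l.2.le)
      (abs_nonneg _) (by positivity)
    push_cast
    exact mul_le_mul_of_nonneg_left hWexp (by positivity)
  have hkr : (2 : ℝ) ≤ k := by exact_mod_cast hk
  have htr : (1 : ℝ) ≤ t := by exact_mod_cast ht
  have hTr : (T : ℝ) + 1 = k * t := by exact_mod_cast hT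
  have hc1 : ((Fintype.card (Fin (T + 1) × Fin (T + 1)) : ℕ) : ℝ) = ((k : ℝ) * t) ^ 2 := by
    simp only [Fintype.card_prod, Fintype.card_fin]
    push_cast
    rw [hTr]; ring
  have hc2 : ((Fintype.card (Fin n) : ℕ) : ℝ) = (k : ℝ) * t ^ 2 := by
    simp only [Fintype.card_fin, hn]
    push_cast; ring
  have hexp : ((Fintype.card (Fin n) : ℕ) : ℝ) /
      (((Fintype.card (Fin (T + 1) × Fin (T + 1)) : ℕ) : ℝ) - ((Fintype.card (Fin n) : ℕ) : ℝ)) =
      1 / ((k : ℝ) - 1) := by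
    rw [hc1, hc2]
    have h1 : (k : ℝ) - 1 ≠ 0 := by linarith
    have h2 : ((k : ℝ) * t) ^ 2 - (k : ℝ) * t ^ 2 = ((k : ℝ) - 1) * (k * t ^ 2) := by ring
    rw [h2]
    have h3 : (k : ℝ) * t ^ 2 ≠ 0 := by positivity
    field_simp
  rw [hexp, hc1] at hP2
  have hkm : 0 < (k : ℝ) - 1 := by linarith
  have hbase : 1 ≤ ((k : ℝ) * t) ^ 2 * K := by
    have : 1 ≤ ((k : ℝ) * t) ^ 2 := one_le_pow₀ (by nlinarith)
    exact one_le_mul_of_one_le_of_one_le this hK1
  refine ⟨P, (((k : ℝ) * t) ^ 2 * K) ^ (1 / ((k : ℝ) - 1)), hP0, ?_, ?_, ?_, ?_⟩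
  · exact Real.one_le_rpow hbase (by positivity)
  · intro x
    have h1 : ‖P x‖ ≤ ‖P‖ := norm_le_pi_norm P x
    rw [Int.norm_eq_abs] at h1
    refine h1.trans (hP2.trans ?_)
    refine Real.rpow_le_rpow (by positivity) ?_ (by positivity)
    exact mul_le_mul_of_nonneg_left hMt (by positivity)
  · intro l hl
    have h1 := congrFun hP1 ⟨l, hl⟩
    rw [Matrix.mulVec, dotProduct] at h1
    simp only [Pi.zero_apply] at h1
    have h2 : ((E ^ T * W n : ℕ) : ℚ) * PowerSeries.coeff l (gP f T P) = 0 := by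
      rw [coeff_gP, mul_sum]
      have h3 : ((∑ x, Mt ⟨l, hl⟩ x * P x : ℤ) : ℚ) = 0 := by rw [h1]; rfl
      rw [← h3]
      push_cast
      refine sum_congr rfl fun x _ => ?_
      change _ = ((M ⟨l, hl⟩ x : ℤ) : ℚ) * _
      rw [← hM]
      push_cast
      ring
    rcases mul_eq_zero.1 h2 with h | h
    · exfalso
      have h5 : E ^ T * W n ≠ 0 := by
        have := hW0 n
        positivity
      exact h5 (by exact_mod_cast h)
    · exact h
  · have hA0 : 0 < 2 * A := by linarith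
    have hEx : 0 < Real.exp (τ * n) := Real.exp_pos _
    have hlK : Real.log K = T * Real.log E + τ * n + (n + T) * Real.log (2 * A) := by
      rw [hK, Real.log_mul (by positivity) (by positivity),
        Real.log_mul (by positivity) (by positivity), Real.log_pow, Real.log_pow, Real.log_exp]
      push_cast
      ring
    have hkt0 : 0 < (k : ℝ) * t := by positivity
    rw [Real.log_rpow (by positivity), Real.log_mul (by positivity) (by positivity), Real.log_pow,
      hlK]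
    push_cast
    ring

/-- The criterion. -/
theorem crit : StCrit := by
  intro f W E τ A Ψ hE hW0 hW hτ hf hA hc hG1 hG2 hlt
  by_contra hna
  set R : ℝ := ‖PowerSeries.coeff 1 (Ψ PowerSeries.X)‖ with hR
  have hτ0 : 0 ≤ τ := by
    have h1 := hτ 1
    have h2 : 0 ≤ Real.log (W 1) := Real.log_natCast_nonneg _
    simpa using h2.trans h1
  have hlogR : 0 < Real.log R := lt_of_le_of_lt hτ0 hlt
  have hR0 : 0 < R := by
    by_contra h
    have : R = 0 := le_antisymm (not_lt.1 h) (norm_nonneg _)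
    rw [this, Real.log_zero] at hlogR
    exact lt_irrefl _ hlogR
  -- choose rho
  set η : ℝ := (Real.log R - τ) / 2 with hη
  have hη0 : 0 < η := by rw [hη]; linarith
  set ρ : ℝ := Real.exp (-η) with hρ
  have hρ0 : 0 < ρ := Real.exp_pos _
  have hρ1 : ρ < 1 := by rw [hρ, Real.exp_lt_one_iff]; linarith
  have hlogρ : Real.log ρ = -η := by rw [hρ, Real.log_exp]
  have hδ : Real.log R + Real.log ρ - τ = η := by rw [hlogρ, hη]; ring
  obtain ⟨B1, hB1⟩ := Bd_of_Gd hρ0 hρ1 hG1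
  obtain ⟨B2, hB2⟩ := Bd_of_Gd hρ0 hρ1 hG2
  set B : ℝ := max 1 (max B1 B2) with hB
  have hB1' : 1 ≤ B := le_max_left _ _
  have h1 : Bd ρ B (Ψ PowerSeries.X) :=
    Bd_mono hB1 ((le_max_left _ _).trans (le_max_right _ _))
  have h2 : Bd ρ B (Ψ f) := Bd_mono hB2 ((le_max_right _ _).trans (le_max_right _ _))
  set A' : ℝ := max 1 A with hA'
  have hA1 : 1 ≤ A' := le_max_left _ _
  have hAb : ∀ m : ℕ, |((PowerSeries.coeff m f : ℚ) : ℝ)| ≤ A' ^ (m + 1) := by
    intro m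
    have hA0 : 0 ≤ A := by
      have := (abs_nonneg _).trans (hA 0)
      simpa using this
    exact (hA m).trans (pow_le_pow_left₀ hA0 (le_max_right _ _) _)
  set D : ℝ := Real.log (2 * A') with hD
  have hD0 : 0 ≤ D := Real.log_nonneg (by linarith)
  have hlE : 0 ≤ Real.log E := Real.log_natCast_nonneg _
  have hlB : 0 ≤ Real.log B := Real.log_nonneg hB1'
  -- choose k
  obtain ⟨k, hk⟩ := exists_nat_gt (2 * (τ + D) / η + 2)
  have hkr : 2 * (τ + D) / η + 2 < k := hk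
  have hk2 : 2 ≤ k := by
    have : (2 : ℝ) < k := lt_of_le_of_lt (by
      have : 0 ≤ 2 * (τ + D) / η := by positivity
      linarith) hk
    exact_mod_cast this.le
  have hkm : 1 ≤ (k : ℝ) - 1 := by
    have : (2 : ℝ) ≤ k := by exact_mod_cast hk2
    linarith
  have hkC : (1 / ((k : ℝ) - 1)) * (τ + D) ≤ η / 2 := by
    have h3 : 2 * (τ + D) / η ≤ (k : ℝ) - 1 := by linarith
    rw [div_le_iff₀ hη0] at h3
    rw [one_div, inv_mul_le_iff₀ (by linarith)]
    linarith
  -- choose t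
  set C4 : ℝ := 4 + 2 * Real.log E + 2 * Real.log B + D with hC4
  have hC40 : 0 ≤ C4 := by positivity
  obtain ⟨t, ht⟩ := exists_nat_gt (2 * C4 / η + 1)
  have ht1 : (1 : ℝ) < t := lt_of_le_of_lt (by
      have : 0 ≤ 2 * C4 / η := by positivity
      linarith) ht
  have ht1' : 1 ≤ t := by exact_mod_cast ht1.le
  have hkt : 1 ≤ k * t := by nlinarith
  obtain ⟨T, hT⟩ : ∃ T, T + 1 = k * t := ⟨k * t - 1, by omega⟩
  obtain ⟨P, H, hP0, hH, hPH, hvan, hlogH⟩ := siegel f W E τ A' hE hW0 hW hτ hτ0 hf hA1 hAb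
    k t T hk2 ht1' hT
  have hg : gP f T P ≠ 0 := fun h => hna (alg_of_gP f T P hP0 h)
  obtain ⟨N, hN, hineq⟩ := main_ineq f W E τ Ψ hE hW0 hW hτ hf hc hρ0 hB1' h1 h2 hR0 T P hH hPH hg
  rw [← hR, hδ] at hineq
  have hNge : k * t ^ 2 ≤ N := by
    by_contra hcon
    exact hN (hvan N (by omega))
  have hNr : (k : ℝ) * t ^ 2 ≤ N := by exact_mod_cast hNge
  have hTr : (T : ℝ) + 1 = k * t := by exact_mod_cast hT
  have hTle : (T : ℝ) ≤ k * t := by linarith
  have hT0 : (0 : ℝ) ≤ T := Nat.cast_nonneg _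
  have hkt0 : (0 : ℝ) < k * t := by
    have : (0 : ℝ) < (k : ℝ) := by linarith
    have : (0 : ℝ) < (t : ℝ) := by linarith
    positivity
  have hlogkt : Real.log (k * t) ≤ k * t := by
    have := Real.log_le_sub_one_of_pos hkt0
    linarith
  have hlogkt0 : 0 ≤ Real.log (k * t) := Real.log_nonneg (by exact_mod_cast hkt)
  rw [hTr] at hineq
  -- the bound of log H
  have hbd : Real.log H ≤ (2 + Real.log E + D) * (k * t) + η / 2 * (k * t ^ 2) := by
    rw [hlogH]
    push_cast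
    rw [← hD]
    have e1 : (1 / ((k : ℝ) - 1)) * (2 * Real.log (k * t) + T * Real.log E +
        τ * (k * t ^ 2) + (k * t ^ 2 + T) * D) =
        (1 / ((k : ℝ) - 1)) * (2 * Real.log (k * t) + T * Real.log E + T * D) +
        ((1 / ((k : ℝ) - 1)) * (τ + D)) * (k * t ^ 2) := by ring
    rw [e1]
    refine add_le_add ?_ (mul_le_mul_of_nonneg_right hkC (by positivity))
    have e2 : 1 / ((k : ℝ) - 1) ≤ 1 := by
      rw [div_le_one (by linarith)]
      exact hkm
    have e3 : 0 ≤ 2 * Real.log (k * t) + T * Real.log E + T * D := by positivity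
    calc _ ≤ 1 * (2 * Real.log (k * t) + T * Real.log E + T * D) :=
          mul_le_mul_of_nonneg_right e2 e3
      _ ≤ _ := by
          have f1 : T * Real.log E ≤ (k * t) * Real.log E := mul_le_mul_of_nonneg_right hTle hlE
          have f2 : T * D ≤ (k * t) * D := mul_le_mul_of_nonneg_right hTle hD0
          linarith
  have hfin : η * (k * t ^ 2) ≤ C4 * (k * t) + η / 2 * (k * t ^ 2) := by
    have g1 : η * (k * t ^ 2) ≤ η * N := mul_le_mul_of_nonneg_left hNr hη0.le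
    have f1 : T * Real.log E ≤ (k * t) * Real.log E := mul_le_mul_of_nonneg_right hTle hlE
    have f3 : T * Real.log B ≤ (k * t) * Real.log B := mul_le_mul_of_nonneg_right hTle hlB
    rw [hC4]
    linarith
  have hfin2 : η / 2 * t ≤ C4 := by
    have e : η / 2 * (k * (t : ℝ) ^ 2) = (η / 2 * t) * (k * t) := by ring
    have : (η / 2 * t) * (k * t) ≤ C4 * (k * t) := by rw [← e]; linarith
    exact le_of_mul_le_mul_right this hkt0
  have : 2 * C4 / η < t := by linarith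
  rw [div_lt_iff₀ hη0] at this
  linarith

end Pool.Agent.Y474.PC
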